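import Mathlib

/-!
# Lyndon interpolation implies Lyndon positivity for all monotone modal logics

Let `φ(p)` be monotone in `Λ`.  Write `φ = φ*(p, ¬p)` with `φ*` positive.  Then
`φ(p) → φ(p ∨ q) = φ*(p ∨ q, ¬p ∧ ¬q) → φ*(p ∨ q, ¬q)`, and the only common literals of `φ(p)` and
`φ*(p ∨ q, ¬q)` are positive.  A Lyndon interpolant `θ(p)` satisfies `φ(p) → θ(p)` and, with
`q := p`, `θ(p) → φ*(p ∨ p, ¬p) → φ(p)`.
-/

set_option autoImplicit false

namespace Pool.Agent.Results.MP_55f31a_lc.LyndonGivesPositivity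

/-- Modal formulas, built from literals. -/
inductive Form : Type
  | pos (n : ℕ) : Form
  | neg (n : ℕ) : Form
  | top : Form
  | bot : Form
  | and (a b : Form) : Form
  | or (a b : Form) : Form
  | dia (a : Form) : Form
  | box (a : Form) : Form

/-- Negation, by the De Morgan and modal duality laws. -/
def Form.not : Form → Form
  | Form.pos n => Form.neg n
  | Form.neg n => Form.pos n
  | Form.top => Form.bot
  | Form.bot => Form.top
  | Form.and a b => Form.or a.not b.not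
  | Form.or a b => Form.and a.not b.not
  | Form.dia a => Form.box a.not
  | Form.box a => Form.dia a.not

/-- `a → b`, that is `¬a ∨ b`. -/
def Form.imp (a b : Form) : Form := Form.or a.not b

/-- `a ↔ b`. -/
def Form.iff (a b : Form) : Form := Form.and (a.imp b) (b.imp a)

/-- The literals of a formula: `(n, true)` for `pₙ` and `(n, false)` for `¬pₙ`. -/
def Form.lits : Form → Set (ℕ × Bool)
  | Form.pos n => {(n, true)}
  | Form.neg n => {(n, false)}
  | Form.top => ∅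
  | Form.bot => ∅
  | Form.and a b => a.lits ∪ b.lits
  | Form.or a b => a.lits ∪ b.lits
  | Form.dia a => a.lits
  | Form.box a => a.lits

/-- The variables of a formula. -/
def Form.vars (φ : Form) : Set ℕ := {n | ∃ b, (n, b) ∈ φ.lits}

/-- Uniform substitution. -/
def Form.subst (σ : ℕ → Form) : Form → Form
  | Form.pos n => σ n
  | Form.neg n => (σ n).not
  | Form.top => Form.top
  | Form.bot => Form.bot
  | Form.and a b => Form.and (a.subst σ) (b.subst σ)
  | Form.or a b => Form.or (a.subst σ) (b.subst σ)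
  | Form.dia a => Form.dia (a.subst σ)
  | Form.box a => Form.box (a.subst σ)

/-- Classical tautologies: formulas true under every assignment of truth values to all formulas
that respects `⊤`, `⊥`, `∧`, `∨` and negation. -/
def Tautology (φ : Form) : Prop :=
  ∀ e : Form → Prop, e Form.top → ¬ e Form.bot → (∀ a b, e (Form.and a b) ↔ (e a ∧ e b)) →
    (∀ a b, e (Form.or a b) ↔ (e a ∨ e b)) → (∀ a, e a.not ↔ ¬ e a) → e φ

/-- Monotone modal logics. -/
structure IsMonotoneLogic (Λ : Set Form) : Prop where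
  taut : ∀ φ, Tautology φ → φ ∈ Λ
  dual : (Form.box (Form.pos 0)).iff (Form.dia (Form.pos 0).not).not ∈ Λ
  mono : (Form.dia (Form.pos 0)).imp (Form.dia (Form.or (Form.pos 0) (Form.pos 1))) ∈ Λ
  mp : ∀ φ ψ, φ ∈ Λ → φ.imp ψ ∈ Λ → ψ ∈ Λ
  subst : ∀ φ (σ : ℕ → Form), φ ∈ Λ → φ.subst σ ∈ Λ
  congr : ∀ φ ψ, φ.iff ψ ∈ Λ → (Form.dia φ).iff (Form.dia ψ) ∈ Λ

/-- `φ(p⃗)` is monotone in `Λ`: `φ(p⃗) → φ(p⃗ ∨ q⃗) ∈ Λ` for fresh variables `q⃗`; here `ν n` is the
fresh variable that belongs to the variable `n`. -/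
def MonotoneIn (Λ : Set Form) (φ : Form) : Prop :=
  ∃ ν : ℕ → ℕ, Function.Injective ν ∧ (∀ n, ν n ∉ φ.vars) ∧
    φ.imp (φ.subst fun n => Form.or (Form.pos n) (Form.pos (ν n))) ∈ Λ

/-- A formula is positive if it contains no negated variable. -/
def Form.Positive (φ : Form) : Prop := ∀ n, (n, false) ∉ φ.lits

/-- The Lyndon interpolation property. -/
def LIP (Λ : Set Form) : Prop := ∀ φ ψ : Form, φ.imp ψ ∈ Λ →
  ∃ θ : Form, θ.lits ⊆ φ.lits ∩ ψ.lits ∧ φ.imp θ ∈ Λ ∧ θ.imp ψ ∈ Λ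

/-- The Lyndon positivity property. -/
def LPP (Λ : Set Form) : Prop := ∀ φ : Form, MonotoneIn Λ φ → ∃ ψ : Form, ψ.Positive ∧ φ.iff ψ ∈ Λ

lemma not_not' (a : Form) : a.not.not = a := by
  induction a with
  | pos n => rfl
  | neg n => rfl
  | top => rfl
  | bot => rfl
  | and a b iha ihb => simp [Form.not, iha, ihb]
  | or a b iha ihb => simp [Form.not, iha, ihb]
  | dia a ih => simp [Form.not, ih]
  | box a ih => simp [Form.not, ih]

section

variable {Λ : Set Form} (hΛ : IsMonotoneLogic Λ)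

include hΛ

lemma mem_mp {a b : Form} (h₁ : a ∈ Λ) (h₂ : a.imp b ∈ Λ) : b ∈ Λ := hΛ.mp a b h₁ h₂

lemma of_taut₁ {a b : Form} (h : Tautology (a.imp b)) (ha : a ∈ Λ) : b ∈ Λ :=
  mem_mp hΛ ha (hΛ.taut _ h)

lemma of_taut₂ {a b c : Form} (h : Tautology (a.imp (b.imp c))) (ha : a ∈ Λ) (hb : b ∈ Λ) :
    c ∈ Λ :=
  mem_mp hΛ hb (mem_mp hΛ ha (hΛ.taut _ h))

lemma imp_trans' {a b c : Form} (h₁ : a.imp b ∈ Λ) (h₂ : b.imp c ∈ Λ) : a.imp c ∈ Λ := by
  refine of_taut₂ hΛ ?_ h₁ h₂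
  intro e _ _ _ hor hnot
  simp only [Form.imp, hor, hnot]
  tauto

lemma imp_refl' (a : Form) : a.imp a ∈ Λ := by
  refine hΛ.taut _ ?_
  intro e _ _ _ hor hnot
  simp only [Form.imp, hor, hnot]
  tauto

lemma and_mono {a b c d : Form} (h₁ : a.imp c ∈ Λ) (h₂ : b.imp d ∈ Λ) :
    (Form.and a b).imp (Form.and c d) ∈ Λ := by
  refine of_taut₂ hΛ ?_ h₁ h₂
  intro e _ _ hand hor hnot
  simp only [Form.imp, hor, hnot, hand]
  tauto

lemma or_mono {a b c d : Form} (h₁ : a.imp c ∈ Λ) (h₂ : b.imp d ∈ Λ) :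
    (Form.or a b).imp (Form.or c d) ∈ Λ := by
  refine of_taut₂ hΛ ?_ h₁ h₂
  intro e _ _ hand hor hnot
  simp only [Form.imp, hor, hnot]
  tauto

lemma dia_mono {a b : Form} (h : a.imp b ∈ Λ) : (Form.dia a).imp (Form.dia b) ∈ Λ := by
  have h1 : (Form.dia a).imp (Form.dia (Form.or a b)) ∈ Λ :=
    hΛ.subst _ (fun n => if n = 0 then a else b) hΛ.mono
  have h2 : (Form.or a b).iff b ∈ Λ := by
    refine of_taut₁ hΛ ?_ h
    intro e _ _ hand hor hnot
    simp only [Form.imp, Form.iff, hor, hnot, hand]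
    tauto
  have h3 := hΛ.congr _ _ h2
  have h4 : (Form.dia (Form.or a b)).imp (Form.dia b) ∈ Λ := by
    refine of_taut₁ hΛ ?_ h3
    intro e _ _ hand hor hnot
    simp only [Form.imp, Form.iff, hor, hnot, hand]
    tauto
  exact imp_trans' hΛ h1 h4

lemma box_mono {a b : Form} (h : a.imp b ∈ Λ) : (Form.box a).imp (Form.box b) ∈ Λ := by
  have h1 : (b.not).imp a.not ∈ Λ := by
    refine of_taut₁ hΛ ?_ h
    intro e _ _ hand hor hnot
    simp only [Form.imp, hor, hnot]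
    tauto
  have h2 := dia_mono hΛ h1
  have h3 : ((Form.dia a.not).not).imp (Form.dia b.not).not ∈ Λ := by
    refine of_taut₁ hΛ ?_ h2
    intro e _ _ hand hor hnot
    simp only [Form.imp, hor, hnot]
    tauto
  have e1 : (Form.dia a.not).not = Form.box a := by simp [Form.not, not_not']
  have e2 : (Form.dia b.not).not = Form.box b := by simp [Form.not, not_not']
  rw [e1, e2] at h3
  exact h3

end

/-- `φ*(p ∨ q, ¬q)`. -/
def lift (ν : ℕ → ℕ) : Form → Form
  | Form.pos n => Form.or (Form.pos n) (Form.pos (ν n))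
  | Form.neg n => Form.neg (ν n)
  | Form.top => Form.top
  | Form.bot => Form.bot
  | Form.and a b => Form.and (lift ν a) (lift ν b)
  | Form.or a b => Form.or (lift ν a) (lift ν b)
  | Form.dia a => Form.dia (lift ν a)
  | Form.box a => Form.box (lift ν a)

lemma subst_imp_lift {Λ : Set Form} (hΛ : IsMonotoneLogic Λ) (ν : ℕ → ℕ) (φ : Form) :
    (φ.subst fun n => Form.or (Form.pos n) (Form.pos (ν n))).imp (lift ν φ) ∈ Λ := by
  induction φ with
  | pos n => exact imp_refl' hΛ _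
  | neg n =>
    refine hΛ.taut _ ?_
    intro e _ _ hand hor hnot
    simp only [Form.imp, Form.subst, lift, Form.not, hor]
    have h1 := hnot (Form.neg (ν n))
    have h2 := hnot (Form.neg n)
    simp only [Form.not] at h1 h2
    tauto
  | top => exact imp_refl' hΛ _
  | bot => exact imp_refl' hΛ _
  | and a b iha ihb => exact and_mono hΛ iha ihb
  | or a b iha ihb => exact or_mono hΛ iha ihb
  | dia a ih => exact dia_mono hΛ ih
  | box a ih => exact box_mono hΛ ih

lemma lits_lift (ν : ℕ → ℕ) (φ : Form) : ∀ n, (n, false) ∈ (lift ν φ).lits →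
    ∃ m, n = ν m := by
  induction φ with
  | pos k =>
    rintro n (h | h)
    · have h' : (n, false) = (k, true) := h
      simp at h'
    · have h' : (n, false) = (ν k, true) := h
      simp at h'
  | neg k =>
    intro n h
    have h' : (n, false) = (ν k, false) := h
    exact ⟨k, (Prod.mk.injEq _ _ _ _ ▸ h').1⟩
  | top => intro n h; exact h.elim
  | bot => intro n h; exact h.elim
  | and a b iha ihb => rintro n (h | h); exacts [iha n h, ihb n h]
  | or a b iha ihb => rintro n (h | h); exacts [iha n h, ihb n h]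
  | dia a ih => exact ih
  | box a ih => exact ih

lemma subst_self {θ : Form} {ρ : ℕ → Form} (h : ∀ n ∈ θ.vars, ρ n = Form.pos n) :
    θ.subst ρ = θ := by
  induction θ with
  | pos n => exact h n ⟨true, rfl⟩
  | neg n =>
    show (ρ n).not = _
    rw [h n ⟨false, rfl⟩]
    rfl
  | top => rfl
  | bot => rfl
  | and a b iha ihb =>
    show Form.and _ _ = _
    rw [iha fun n ⟨c, hc⟩ => h n ⟨c, Or.inl hc⟩, ihb fun n ⟨c, hc⟩ => h n ⟨c, Or.inr hc⟩]
  | or a b iha ihb =>
    show Form.or _ _ = _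
    rw [iha fun n ⟨c, hc⟩ => h n ⟨c, Or.inl hc⟩, ihb fun n ⟨c, hc⟩ => h n ⟨c, Or.inr hc⟩]
  | dia a ih =>
    show Form.dia _ = _
    rw [ih h]
  | box a ih =>
    show Form.box _ = _
    rw [ih h]

lemma lift_subst_imp {Λ : Set Form} (hΛ : IsMonotoneLogic Λ) (ν : ℕ → ℕ) (ρ : ℕ → Form)
    (φ : Form) (h₁ : ∀ n ∈ φ.vars, ρ n = Form.pos n) (h₂ : ∀ n ∈ φ.vars, ρ (ν n) = Form.pos n) :
    ((lift ν φ).subst ρ).imp φ ∈ Λ := by
  induction φ with
  | pos n =>
    refine hΛ.taut _ ?_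
    intro e _ _ hand hor hnot
    simp only [Form.imp, Form.subst, lift, h₁ n ⟨true, rfl⟩, h₂ n ⟨true, rfl⟩, hor, hnot]
    tauto
  | neg n =>
    have : (lift ν (Form.neg n)).subst ρ = Form.neg n := by
      show (ρ (ν n)).not = _
      rw [h₂ n ⟨false, rfl⟩]
      rfl
    rw [this]
    exact imp_refl' hΛ _
  | top => exact imp_refl' hΛ _
  | bot => exact imp_refl' hΛ _
  | and a b iha ihb =>
    exact and_mono hΛ
      (iha (fun n ⟨c, hc⟩ => h₁ n ⟨c, Or.inl hc⟩) fun n ⟨c, hc⟩ => h₂ n ⟨c, Or.inl hc⟩)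
      (ihb (fun n ⟨c, hc⟩ => h₁ n ⟨c, Or.inr hc⟩) fun n ⟨c, hc⟩ => h₂ n ⟨c, Or.inr hc⟩)
  | or a b iha ihb =>
    exact or_mono hΛ
      (iha (fun n ⟨c, hc⟩ => h₁ n ⟨c, Or.inl hc⟩) fun n ⟨c, hc⟩ => h₂ n ⟨c, Or.inl hc⟩)
      (ihb (fun n ⟨c, hc⟩ => h₁ n ⟨c, Or.inr hc⟩) fun n ⟨c, hc⟩ => h₂ n ⟨c, Or.inr hc⟩)
  | dia a ih => exact dia_mono hΛ (ih h₁ h₂)
  | box a ih => exact box_mono hΛ (ih h₁ h₂)

/-- **Every monotone modal logic with LIP has LPP**, whether it is normal or not. -/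
theorem result : ∀ Λ : Set Form, IsMonotoneLogic Λ → LIP Λ → LPP Λ := by
  classical
  intro Λ hΛ hL φ hφ
  obtain ⟨ν, hinj, hfresh, h⟩ := hφ
  have h1 := imp_trans' hΛ h (subst_imp_lift hΛ ν φ)
  obtain ⟨θ, hlits, h2, h3⟩ := hL _ _ h1
  have hpos : θ.Positive := by
    intro n hn
    obtain ⟨h4, h5⟩ := hlits hn
    obtain ⟨m, rfl⟩ := lits_lift ν φ n h5
    exact hfresh m ⟨false, h4⟩
  have hvars : ∀ n ∈ θ.vars, n ∈ φ.vars := fun n ⟨c, hc⟩ => ⟨c, (hlits hc).1⟩
  let ρ : ℕ → Form := fun k => if hk : ∃ n, ν n = k then Form.pos hk.choose else Form.pos k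
  have r1 : ∀ n ∈ φ.vars, ρ n = Form.pos n := by
    intro n hn
    have : ¬ ∃ m, ν m = n := by
      rintro ⟨m, rfl⟩
      exact hfresh m hn
    simp only [ρ, this, dif_neg, not_false_eq_true]
  have r2 : ∀ n, ρ (ν n) = Form.pos n := by
    intro n
    have hk : ∃ m, ν m = ν n := ⟨n, rfl⟩
    simp only [ρ, hk, dif_pos]
    exact congrArg Form.pos (hinj hk.choose_spec)
  have h4 := hΛ.subst _ ρ h3
  have h5 : (θ.imp (lift ν φ)).subst ρ = θ.imp ((lift ν φ).subst ρ) := by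
    have e1 : ∀ a : Form, a.not.subst ρ = (a.subst ρ).not := by
      intro a
      induction a with
      | pos n => rfl
      | neg n => exact (not_not' _).symm
      | top => rfl
      | bot => rfl
      | and a b iha ihb => simp [Form.not, Form.subst, iha, ihb]
      | or a b iha ihb => simp [Form.not, Form.subst, iha, ihb]
      | dia a ih => simp [Form.not, Form.subst, ih]
      | box a ih => simp [Form.not, Form.subst, ih]
    show Form.or (θ.not.subst ρ) _ = Form.or θ.not _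
    rw [e1, subst_self fun n hn => r1 n (hvars n hn)]
  rw [h5] at h4
  have h6 := imp_trans' hΛ h4 (lift_subst_imp hΛ ν ρ φ r1 fun n _ => r2 n)
  refine ⟨θ, hpos, ?_⟩
  refine of_taut₂ hΛ ?_ h2 h6
  intro e _ _ hand hor hnot
  simp only [Form.imp, Form.iff, hor, hnot, hand]
  tauto

end Pool.Agent.Results.MP_55f31a_lc.LyndonGivesPositivity
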